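import Pool.Agent.Helper870.FAK13
import Pool.Agent.Helper870.FAU3
import Pool.Agent.Helper769.FAU.P_speed
import Pool.Agent.Helper769.FAU.Iface

set_option autoImplicit false

open Filter

noncomputable section

namespace Pool.Agent.Results.MP_4c13d6_pr.CutoffAllQ

/-- Configurations on `{0, 1, ..., n}`: `true` is the value 1 (healthy), `false` is the value 0 (infected). -/
abbrev Config (n : ℕ) := Fin (n + 1) → Bool

/-- The value at the site `x`, read from the boundary condition `σ` outside `{0, ..., n}`. -/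
def val (n : ℕ) (σ : ℤ → Bool) (η : Config n) (x : ℤ) : Bool :=
  if h : 0 ≤ x ∧ x ≤ (n : ℤ) then η ⟨x.toNat, by omega⟩ else σ x

/-- The constraint: 1 if at least one neighbour of `x` is infected, else 0. -/
def constr (n : ℕ) (σ : ℤ → Bool) (η : Config n) (x : Fin (n + 1)) : ℝ :=
  if val n σ η (((x : ℕ) : ℤ) - 1) = false ∨ val n σ η (((x : ℕ) : ℤ) + 1) = false then 1 else 0

/-- The rate at which `x` flips: constraint times `q` if `x` is healthy, times `1 - q` if `x` is infected
(resampling at rate one, infected with probability `q`). -/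
def flipRate (q : ℝ) (n : ℕ) (σ : ℤ → Bool) (x : Fin (n + 1)) (η : Config n) : ℝ :=
  constr n σ η x * (if η x = true then q else 1 - q)

/-- The configuration flipped at `x`. -/
def flipAt (n : ℕ) (η : Config n) (x : Fin (n + 1)) : Config n := Function.update η x (!η x)

/-- The generator of the chain with boundary condition `σ`. -/
def gen (q : ℝ) (n : ℕ) (σ : ℤ → Bool) (f : Config n → ℝ) (η : Config n) : ℝ :=
  ∑ x : Fin (n + 1), flipRate q n σ x η * (f (flipAt n η x) - f η)

/-- The semigroup `exp (t * gen)`, as an exponential series. -/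
def semi (q : ℝ) (n : ℕ) (σ : ℤ → Bool) (t : ℝ) (f : Config n → ℝ) (η : Config n) : ℝ :=
  ∑' m : ℕ, t ^ m / (m.factorial : ℝ) * ((gen q n σ)^[m] f) η

/-- The transition probabilities of the chain. -/
def prob (q : ℝ) (n : ℕ) (σ : ℤ → Bool) (t : ℝ) (η ξ : Config n) : ℝ :=
  semi q n σ t (fun ζ => if ζ = ξ then 1 else 0) η

/-- The product measure: each site infected with probability `q`. -/
def prodLaw (q : ℝ) (n : ℕ) (η : Config n) : ℝ := ∏ x : Fin (n + 1), (if η x = true then 1 - q else q)

open Classical in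
/-- The product measure conditioned on having at least one infected site. -/
def condLaw (q : ℝ) (n : ℕ) (η : Config n) : ℝ :=
  if ∃ x, η x = false then
    prodLaw q n η / ∑ ζ ∈ (Finset.univ : Finset (Config n)).filter (fun ζ => ∃ x, ζ x = false), prodLaw q n ζ
  else 0

/-- Total variation distance. -/
def dTV (n : ℕ) (μ ν : Config n → ℝ) : ℝ := (∑ ξ : Config n, |μ ξ - ν ξ|) / 2

/-- The mixing time of the chain with boundary condition `σ`, state space `Ω` and stationary law `μ`. -/
def tmix (q : ℝ) (n : ℕ) (σ : ℤ → Bool) (Ω : Set (Config n)) (μ : Config n → ℝ) (ε : ℝ) : ℝ :=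
  sInf {t : ℝ | 0 ≤ t ∧ ∀ η ∈ Ω, dTV n (prob q n σ t η) μ ≤ ε}

/-- Cutoff for a sequence of chains with mixing times `T n ε`. -/
def Cutoff (T : ℕ → ℝ → ℝ) : Prop :=
  ∀ ε : ℝ, 0 < ε → ε < 1 / 2 → Tendsto (fun n : ℕ => T n ε / T n (1 - ε)) atTop (nhds 1)

/-- Cutoff for FA-1f on `{0, ..., n}`, for every infection density `q`. Version (a): the boundary condition
`σ n` (which may depend on `n`) is infected at `-1` or at `n + 1`; the chain lives on all configurations.
Version (b): healthy boundary condition, the chain lives on the configurations with an infected site. -/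
theorem result (q : ℝ) (h0 : 0 < q) (h1 : q < 1) :
    (∀ σ : ℕ → ℤ → Bool, (∀ n, σ n (-1) = false ∨ σ n ((n : ℤ) + 1) = false) →
      Cutoff (fun n ε => tmix q n (σ n) Set.univ (prodLaw q n) ε)) ∧
    Cutoff (fun n ε => tmix q n (fun _ => true) {η | ∃ x, η x = false} (condLaw q n) ε) := by
  have hsum : ∀ μ : FAF.Fam, FAF.Inv q μ → Summable (fun n => μ.E (n + 1) (FAF.al q μ n)) := fun μ hI =>
    FAF.summable_al_of q h0 h1 (fun μ hI _ n => FAF.U1a_raw q h0 h1 μ hI n) (FAF.U1b_raw q h0 h1) μ hI
      (FAF.gap_raw q h0 h1 μ hI)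
  obtain ⟨v, hv, hsp1, hsp2⟩ := FAF.speed_of q h0 h1 hsum
  exact FA.Cut.cutoff_main h0 h1 v hv hsp1 hsp2

end Pool.Agent.Results.MP_4c13d6_pr.CutoffAllQ
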